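import Mathlib

/-!
# Covering numbers, and the size of locally Euclidean spaces
-/

set_option autoImplicit false

namespace Pool.Agent.R475.ENH

open Set Topology Cardinal Filter

/-- `cov(B)`: the least cardinality of a family of nowhere dense subsets of the real line which
covers the real line. -/
noncomputable def covB : Cardinal.{0} :=
  sInf {c | ∃ 𝒟 : Set (Set ℝ), #𝒟 = c ∧ (∀ D ∈ 𝒟, IsNowhereDense D) ∧ ⋃₀ 𝒟 = Set.univ}

lemma covB_le {ι : Type} (D : ι → Set ℝ) (hD : ∀ i, IsNowhereDense (D i))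
    (hc : ∀ x, ∃ i, x ∈ D i) : covB ≤ #ι := by
  refine le_trans (csInf_le' ⟨range D, rfl, ?_, ?_⟩) mk_range_le
  · rintro _ ⟨i, rfl⟩
    exact hD i
  · rw [eq_univ_iff_forall]
    intro x
    obtain ⟨i, hi⟩ := hc x
    exact ⟨D i, ⟨i, rfl⟩, hi⟩

lemma covB_mem : ∃ 𝒟 : Set (Set ℝ), #𝒟 = covB ∧ (∀ D ∈ 𝒟, IsNowhereDense D) ∧
    ⋃₀ 𝒟 = Set.univ := by
  have h : {c : Cardinal.{0} | ∃ 𝒟 : Set (Set ℝ), #𝒟 = c ∧ (∀ D ∈ 𝒟, IsNowhereDense D) ∧
      ⋃₀ 𝒟 = Set.univ}.Nonempty := by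
    refine ⟨_, range (fun x : ℝ => {x}), rfl, ?_, ?_⟩
    · rintro _ ⟨x, rfl⟩
      rw [IsNowhereDense, closure_singleton, interior_singleton]
    · rw [eq_univ_iff_forall]
      intro x
      exact ⟨{x}, ⟨x, rfl⟩, rfl⟩
  exact csInf_mem h

lemma aleph0_lt_covB : ℵ₀ < covB := by
  by_contra h
  push Not at h
  obtain ⟨𝒟, h1, h2, h3⟩ := covB_mem
  rw [← h1] at h
  have : Countable 𝒟 := mk_le_aleph0_iff.1 h
  obtain ⟨i, hi⟩ := nonempty_interior_of_iUnion_of_closed (f := fun D : 𝒟 => closure D.1)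
    (fun _ => isClosed_closure) (by
      rw [eq_univ_iff_forall]
      intro x
      have h4 : x ∈ ⋃₀ 𝒟 := by rw [h3]; exact mem_univ x
      obtain ⟨D, hD, hx⟩ := h4
      exact mem_iUnion.2 ⟨⟨D, hD⟩, subset_closure hx⟩)
  have h4 := h2 i.1 i.2
  rw [IsNowhereDense] at h4
  rw [h4] at hi
  exact Set.not_nonempty_empty hi

/-- fewer than `cov(B)` closed nowhere dense sets do not cover the space `Y` -/
def CovProp (Y : Type) [TopologicalSpace Y] : Prop :=
  ∀ (ι : Type) (D : ι → Set Y), (∀ i, IsClosed (D i)) → (∀ i, interior (D i) = ∅) →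
    (∀ y, ∃ i, y ∈ D i) → covB ≤ #ι

lemma covProp_real : CovProp ℝ := by
  intro ι D h1 h2 h3
  refine covB_le D (fun i => ?_) h3
  rw [IsNowhereDense, (h1 i).closure_eq]
  exact h2 i

lemma CovProp.homeo {Y Z : Type} [TopologicalSpace Y] [TopologicalSpace Z] (h : CovProp Y)
    (e : Y ≃ₜ Z) : CovProp Z := by
  intro ι D h1 h2 h3
  refine h ι (fun i => e ⁻¹' D i) (fun i => (h1 i).preimage e.continuous) (fun i => ?_)
    (fun y => h3 (e y))
  rw [← e.preimage_interior, h2 i, preimage_empty]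

lemma CovProp.prod {Y : Type} [TopologicalSpace Y] [SecondCountableTopology Y] (h : CovProp Y) :
    CovProp (ℝ × Y) := by
  intro ι D h1 h2 h3
  by_contra hlt
  push Not at hlt
  let B := TopologicalSpace.countableBasis Y
  have hB : B.Countable := TopologicalSpace.countable_countableBasis Y
  have hBb := TopologicalSpace.isBasis_countableBasis Y
  let F : ι × {V : Set Y // V ∈ B ∧ V.Nonempty} → Set ℝ := fun p =>
    {x | ∀ y ∈ p.2.1, (x, y) ∈ D p.1}
  have hFc : ∀ p, IsClosed (F p) := by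
    intro p
    have h4 : F p = ⋂ y ∈ p.2.1, {x | (x, y) ∈ D p.1} := by
      ext x
      simp [F]
    rw [h4]
    exact isClosed_biInter fun y _ => (h1 p.1).preimage (Continuous.prodMk_left y)
  have hFi : ∀ p, interior (F p) = ∅ := by
    intro p
    by_contra hne
    obtain ⟨x, hx⟩ := nonempty_iff_ne_empty.2 hne
    obtain ⟨y, hy⟩ := p.2.2.2
    have h4 : interior (F p) ×ˢ p.2.1 ⊆ D p.1 := by
      rintro ⟨a, b⟩ ⟨ha, hb⟩
      exact interior_subset ha b hb
    have h5 : IsOpen (interior (F p) ×ˢ p.2.1) :=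
      isOpen_interior.prod (hBb.isOpen p.2.2.1)
    have h6 := interior_maximal h4 h5
    rw [h2 p.1] at h6
    exact h6 (show (x, y) ∈ interior (F p) ×ˢ p.2.1 from ⟨hx, hy⟩)
  have hcard : #(ι × {V : Set Y // V ∈ B ∧ V.Nonempty}) < covB := by
    rw [mk_prod]
    simp only [lift_id]
    refine mul_lt_of_lt aleph0_lt_covB.le hlt ?_
    refine lt_of_le_of_lt ?_ aleph0_lt_covB
    have h4 : #{V : Set Y // V ∈ B ∧ V.Nonempty} ≤ #B :=
      mk_le_of_injective (f := fun V : {V : Set Y // V ∈ B ∧ V.Nonempty} => (⟨V.1, V.2.1⟩ : B))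
        fun V W hVW => Subtype.ext (congrArg (fun z : B => z.1) hVW)
    exact h4.trans hB.le_aleph0
  obtain ⟨x, hx⟩ : ∃ x, ∀ p, x ∉ F p := by
    by_contra hc
    push Not at hc
    exact absurd (covProp_real _ F hFc hFi hc) (not_le.2 hcard)
  refine absurd (h ι (fun i => {y | (x, y) ∈ D i})
    (fun i => (h1 i).preimage (Continuous.prodMk_right x)) (fun i => ?_) (fun y => h3 (x, y)))
    (not_le.2 hlt)
  by_contra hne
  obtain ⟨y, hy⟩ := nonempty_iff_ne_empty.2 hne
  obtain ⟨V, hV, hyV, hVs⟩ := hBb.exists_subset_of_mem_open hy isOpen_interior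
  refine hx (i, ⟨V, hV, ⟨y, hyV⟩⟩) fun z hz => ?_
  have h9 : z ∈ {y | (x, y) ∈ D i} := interior_subset (hVs hz)
  exact h9

theorem covProp_fin (n : ℕ) : CovProp (Fin (n + 1) → ℝ) := by
  induction n with
  | zero => exact covProp_real.homeo (Homeomorph.funUnique (Fin 1) ℝ).symm
  | succ n ih =>
    exact ih.prod.homeo (Fin.consEquivL ℝ (fun _ : Fin (n + 2) => ℝ)).toHomeomorph

/-! ### Cardinality -/

lemma mk_closure_le {X : Type} [TopologicalSpace X] [T2Space X] [FirstCountableTopology X]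
    {A : Set X} (hA : #A ≤ 𝔠) : #(closure A) ≤ 𝔠 := by
  have h1 : ∀ x : closure A, ∃ u : ℕ → A, Tendsto (fun n => (u n : X)) atTop (𝓝 x.1) := by
    intro x
    obtain ⟨u, hu, hux⟩ := mem_closure_iff_seq_limit.1 x.2
    exact ⟨fun n => ⟨u n, hu n⟩, hux⟩
  choose u hu using h1
  have h2 : #(closure A) ≤ #(ℕ → A) := by
    refine mk_le_of_injective (f := u) fun x y hxy => ?_
    apply Subtype.ext
    have h3 := hu x
    rw [hxy] at h3
    exact tendsto_nhds_unique h3 (hu y)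
  refine h2.trans ?_
  rw [← power_def, mk_nat]
  exact (power_le_power_right hA).trans (by simp)

/-- the index set of the recursion -/
abbrev Lam : Type := (ℵ₁ : Cardinal.{0}).ord.ToType

lemma countable_Iic (i : Lam) : (Iic i).Countable := by
  have h1 : #(Iio i) < ℵ₁ := mk_Iio_toType_ord_lt i
  have h2 : (Iio i).Countable := by
    rw [← le_aleph0_iff_set_countable]
    rw [← Cardinal.lt_aleph_one_iff]
    exact h1
  have h3 : (Iic i) = Iio i ∪ {i} := by
    ext j
    simp [le_iff_lt_or_eq]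
  rw [h3]
  exact h2.union (countable_singleton i)

lemma exists_bound (i : ℕ → Lam) : ∃ k, ∀ n, i n < k := by
  by_contra hc
  push Not at hc
  have h1 : (Set.univ : Set Lam) ⊆ ⋃ n, Iic (i n) := by
    intro k _
    obtain ⟨n, hn⟩ := hc k
    exact mem_iUnion.2 ⟨n, hn⟩
  have h2 : (Set.univ : Set Lam).Countable := (countable_iUnion fun n => countable_Iic (i n)).mono h1
  have h3 : #Lam ≤ ℵ₀ := mk_le_aleph0_iff.2 (countable_univ_iff.1 h2)
  rw [mk_ord_toType] at h3
  exact absurd h3 (not_le.2 aleph0_lt_aleph_one)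

theorem card_le_continuum (X : Type) [TopologicalSpace X] [T2Space X] [FirstCountableTopology X]
    [PreconnectedSpace X] (V : X → Set X) (hVo : ∀ x, IsOpen (V x)) (hVx : ∀ x, x ∈ V x)
    (hVc : ∀ x, #(V x) ≤ 𝔠) : #X ≤ 𝔠 := by
  rcases isEmpty_or_nonempty X with hX | ⟨⟨x₀⟩⟩
  · rw [mk_eq_zero]
    simp
  let Q : ∀ i : Lam, (∀ j, j < i → Set X) → Set X → Prop := fun i g A =>
    A = V x₀ ∪ ⋃ j : Iio i, ⋃ x ∈ closure (g j.1 j.2), V x
  obtain ⟨S, hS⟩ : ∃ S : Lam → Set X, ∀ i, Q i (fun j _ => S j) (S i) := by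
    refine ⟨(wellFounded_lt (α := Lam)).fix (fun i g => V x₀ ∪ ⋃ j : Iio i,
      ⋃ x ∈ closure (g j.1 j.2), V x), fun i => ?_⟩
    show _ = _
    rw [WellFounded.fix_eq]
  have hsub : ∀ i j, j < i → ∀ x ∈ closure (S j), V x ⊆ S i := by
    intro i j hji x hx y hy
    rw [hS i]
    exact Or.inr (mem_iUnion.2 ⟨⟨j, hji⟩, mem_iUnion₂.2 ⟨x, hx, hy⟩⟩)
  have hmono : ∀ i j, j < i → S j ⊆ S i := fun i j hji x hx =>
    hsub i j hji x (subset_closure hx) (hVx x)
  have hcard : ∀ i, #(S i) ≤ 𝔠 := by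
    intro i
    induction i using (wellFounded_lt (α := Lam)).induction with
    | _ i ih =>
      rw [hS i]
      refine (mk_union_le _ _).trans (add_le_of_le aleph0_le_continuum (hVc x₀) ?_)
      refine (mk_iUnion_le _).trans (mul_le_of_le aleph0_le_continuum ?_ ?_)
      · have h1 : (Iio i).Countable := (countable_Iic i).mono Iio_subset_Iic_self
        exact h1.le_aleph0.trans aleph0_le_continuum
      · refine ciSup_le' fun j => ?_
        rw [biUnion_eq_iUnion]
        refine (mk_iUnion_le _).trans (mul_le_of_le aleph0_le_continuum ?_ ?_)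
        · exact mk_closure_le (ih j.1 j.2)
        · exact ciSup_le' fun x => hVc _
  have hopen : IsOpen (⋃ i, S i) := by
    refine isOpen_iUnion fun i => ?_
    rw [hS i]
    exact (hVo x₀).union (isOpen_iUnion fun j => isOpen_biUnion fun x _ => hVo x)
  have hclosed : IsClosed (⋃ i, S i) := by
    rw [← closure_subset_iff_isClosed]
    intro x hx
    obtain ⟨u, hu, hux⟩ := mem_closure_iff_seq_limit.1 hx
    choose i hi using fun n => mem_iUnion.1 (hu n)
    obtain ⟨k, hk⟩ := exists_bound i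
    obtain ⟨l, hl⟩ := exists_bound fun _ => k
    have h1 : x ∈ closure (S k) :=
      mem_closure_of_tendsto hux (Eventually.of_forall fun n => hmono k (i n) (hk n) (hi n))
    exact mem_iUnion.2 ⟨l, hsub l k (hl 0) x h1 (hVx x)⟩
  obtain ⟨i₀, -⟩ := exists_bound (fun _ => (Classical.choice (by
    rw [← mk_ne_zero_iff, mk_ord_toType]
    exact (aleph_pos 1).ne' : Nonempty Lam)))
  have huniv : (⋃ i, S i) = Set.univ := by
    refine IsClopen.eq_univ ⟨hclosed, hopen⟩ ⟨x₀, mem_iUnion.2 ⟨i₀, ?_⟩⟩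
    rw [hS i₀]
    exact Or.inl (hVx x₀)
  rw [← mk_univ, ← huniv]
  refine (mk_iUnion_le _).trans (mul_le_of_le aleph0_le_continuum ?_ (ciSup_le' fun i => hcard i))
  rw [mk_ord_toType]
  exact aleph_one_le_continuum

end Pool.Agent.R475.ENH
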