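import Pool.Agent.R475.ENH.Gen

/-!
# The example
-/

set_option autoImplicit false

namespace Pool.Agent.R475.ENH

open Set Topology Cardinal Filter

variable {J : Type} (D : J → Set ℝ)

/-- the closed sets, and the empty set for the label `none` -/
def Db : Option J → Set ℝ
  | none => ∅
  | some ξ => D ξ

open Classical in
/-- the labels -/
noncomputable def lab (j : Option J) (s : ℝ) : Option J := if s ∈ Db D j then j else none

open Classical in
/-- the points of the Prüfer surface -/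
noncomputable def nf (a t s : ℝ) : ℝ × ℝ × ℝ := if 0 < s then (a + t * s, 0, s) else (a, t, s)

/-- the charts -/
noncomputable def psi (j : Option J) (a : ℝ) (v : ℝ × ℝ) : Option J × ℝ × ℝ × ℝ :=
  (lab D j v.2, nf a v.1 v.2)

/-- the surface -/
def MS : Type := {m : Option J × ℝ × ℝ × ℝ // ∃ j a v, psi D j a v = m}

/-- the charts -/
noncomputable def ch (j : Option J) (a : ℝ) (v : ℝ × ℝ) : MS D := ⟨psi D j a v, j, a, v, rfl⟩

/-- the topology -/
noncomputable instance : TopologicalSpace (MS D) :=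
  ⨆ p : Option J × ℝ, TopologicalSpace.coinduced (ch D p.1 p.2) inferInstance

lemma isOpen_MS {O : Set (MS D)} : IsOpen O ↔ ∀ j a, IsOpen (ch D j a ⁻¹' O) := by
  have h : IsOpen O ↔ ∀ p : Option J × ℝ,
      IsOpen[TopologicalSpace.coinduced (ch D p.1 p.2) inferInstance] O := isOpen_iSup_iff
  rw [h]
  constructor
  · intro h1 j a
    exact isOpen_coinduced.1 (h1 (j, a))
  · intro h1 p
    exact isOpen_coinduced.2 (h1 p.1 p.2)

lemma surj (m : MS D) : ∃ j a v, ch D j a v = m := by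
  obtain ⟨j, a, v, h⟩ := m.2
  exact ⟨j, a, v, Subtype.ext h⟩

lemma continuous_ch (j : Option J) (a : ℝ) : Continuous (ch D j a) :=
  continuous_def.2 fun _ hO => (isOpen_MS D).1 hO j a

lemma continuous_MS {Y : Type} [TopologicalSpace Y] {f : MS D → Y}
    (h : ∀ j a, Continuous (fun v => f (ch D j a v))) : Continuous f := by
  rw [continuous_def]
  intro O hO
  rw [isOpen_MS]
  intro j a
  exact hO.preimage (h j a)

variable {D}

lemma lab_eq_iff {i j : Option J} {s : ℝ} :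
    lab D j s = lab D i s ↔ j = i ∨ (s ∉ Db D j ∧ s ∉ Db D i) := by
  unfold lab
  by_cases h1 : s ∈ Db D j <;> by_cases h2 : s ∈ Db D i
  · simp [h1, h2]
  · simp only [h1, h2, if_true, if_false, not_true, false_and, or_false]
    constructor
    · rintro rfl
      exact h1.elim
    · rintro rfl
      exact absurd h1 h2
  · simp only [h1, h2, if_true, if_false, not_true, not_false_iff, and_false, or_false]
    constructor
    · rintro rfl
      exact h2.elim
    · rintro rfl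
      exact absurd h2 h1
  · simp [h1, h2]

lemma nf_eq_iff {a b t t' s s' : ℝ} : nf a t s = nf b t' s' ↔
    s = s' ∧ ((a = b ∧ t = t') ∨ (0 < s ∧ a + t * s = b + t' * s)) := by
  unfold nf
  by_cases h1 : 0 < s <;> by_cases h2 : 0 < s'
  · rw [if_pos h1, if_pos h2]
    simp only [Prod.mk.injEq, true_and]
    constructor
    · rintro ⟨h3, rfl⟩
      exact ⟨rfl, Or.inr ⟨h1, h3⟩⟩
    · rintro ⟨rfl, ⟨rfl, rfl⟩ | ⟨-, h⟩⟩
      · exact ⟨rfl, rfl⟩
      · exact ⟨h, rfl⟩
  · rw [if_pos h1, if_neg h2]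
    simp only [Prod.mk.injEq]
    constructor
    · rintro ⟨-, -, rfl⟩
      exact absurd h1 h2
    · rintro ⟨rfl, -⟩
      exact absurd h1 h2
  · rw [if_neg h1, if_pos h2]
    simp only [Prod.mk.injEq]
    constructor
    · rintro ⟨-, -, rfl⟩
      exact absurd h2 h1
    · rintro ⟨rfl, -⟩
      exact absurd h2 h1
  · rw [if_neg h1, if_neg h2]
    simp only [Prod.mk.injEq]
    constructor
    · rintro ⟨rfl, rfl, rfl⟩
      exact ⟨rfl, Or.inl ⟨rfl, rfl⟩⟩
    · rintro ⟨rfl, ⟨rfl, rfl⟩ | ⟨h, -⟩⟩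
      · exact ⟨rfl, rfl, rfl⟩
      · exact absurd h h1

lemma ch_eq_iff {i j : Option J} {a b : ℝ} {v w : ℝ × ℝ} : ch D j a v = ch D i b w ↔
    v.2 = w.2 ∧ (j = i ∨ (v.2 ∉ Db D j ∧ v.2 ∉ Db D i)) ∧
      ((a = b ∧ v.1 = w.1) ∨ (0 < v.2 ∧ a + v.1 * v.2 = b + w.1 * v.2)) := by
  have h1 : ch D j a v = ch D i b w ↔ psi D j a v = psi D i b w :=
    ⟨fun h => congrArg Subtype.val h, fun h => Subtype.ext h⟩
  rw [h1, psi, psi, Prod.mk.injEq, nf_eq_iff]
  constructor
  · rintro ⟨h2, h3, h4⟩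
    rw [← h3] at h2
    exact ⟨h3, lab_eq_iff.1 h2, h4⟩
  · rintro ⟨h3, h2, h4⟩
    refine ⟨?_, h3, h4⟩
    rw [← h3]
    exact lab_eq_iff.2 h2

lemma ch_injective (j : Option J) (a : ℝ) : Function.Injective (ch D j a) := by
  intro v w h
  obtain ⟨h1, -, h2⟩ := ch_eq_iff.1 h
  refine Prod.ext ?_ h1
  rcases h2 with h2 | ⟨h2, h3⟩
  · exact h2.2
  · have h4 : v.1 * v.2 = w.1 * v.2 := by linarith
    exact mul_right_cancel₀ h2.ne' h4

section

variable (hDc : ∀ ξ, IsClosed (D ξ)) (hDi : ∀ ξ, interior (D ξ) = ∅)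

include hDc in
lemma isClosed_Db (j : Option J) : IsClosed (Db D j) := by
  cases j with
  | none => exact isClosed_empty
  | some ξ => exact hDc ξ

include hDi in
lemma interior_Db (j : Option J) : interior (Db D j) = ∅ := by
  cases j with
  | none => exact interior_empty
  | some ξ => exact hDi ξ

include hDc in
lemma isOpenMap_ch (j : Option J) (a : ℝ) : IsOpenMap (ch D j a) := by
  intro W hW
  rw [isOpen_MS]
  intro i b
  have h1 : ch D i b ⁻¹' (ch D j a '' W) =
      {v | j = i ∨ (v.2 ∉ Db D j ∧ v.2 ∉ Db D i)} ∩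
        (({v | a = b} ∩ W) ∪ ({v | 0 < v.2} ∩ (fun v : ℝ × ℝ => (v.1 + (b - a) / v.2, v.2)) ⁻¹' W)) := by
    ext v
    constructor
    · rintro ⟨w, hw, h⟩
      obtain ⟨h2, h3, h4⟩ := ch_eq_iff.1 h
      rw [h2] at h3 h4
      refine ⟨h3, ?_⟩
      rcases h4 with ⟨h4, h5⟩ | ⟨h4, h5⟩
      · left
        have h6 : w = v := Prod.ext h5 h2
        exact ⟨h4, h6 ▸ hw⟩
      · right
        refine ⟨h4, ?_⟩
        have h6 : (v.1 + (b - a) / v.2, v.2) = w := by
          refine Prod.ext ?_ h2.symm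
          have h7 : v.2 ≠ 0 := ne_of_gt h4
          show v.1 + (b - a) / v.2 = w.1
          field_simp
          linarith
        show (v.1 + (b - a) / v.2, v.2) ∈ W
        rw [h6]; exact hw
    · rintro ⟨h3, h4⟩
      rcases h4 with ⟨h4, h5⟩ | ⟨h4, h5⟩
      · exact ⟨v, h5, ch_eq_iff.2 ⟨rfl, h3, Or.inl ⟨h4, rfl⟩⟩⟩
      · refine ⟨_, h5, ch_eq_iff.2 ⟨rfl, h3, Or.inr ⟨h4, ?_⟩⟩⟩
        have h7 : v.2 ≠ 0 := ne_of_gt h4
        show a + (v.1 + (b - a) / v.2) * v.2 = b + v.1 * v.2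
        field_simp
        ring
  rw [h1]
  refine IsOpen.inter ?_ (IsOpen.union ?_ ?_)
  · by_cases hji : j = i
    · have h2 : {v : ℝ × ℝ | j = i ∨ (v.2 ∉ Db D j ∧ v.2 ∉ Db D i)} = Set.univ :=
        eq_univ_iff_forall.2 fun v => Or.inl hji
      rw [h2]; exact isOpen_univ
    · have h2 : {v : ℝ × ℝ | j = i ∨ (v.2 ∉ Db D j ∧ v.2 ∉ Db D i)} =
          (Prod.snd ⁻¹' (Db D j))ᶜ ∩ (Prod.snd ⁻¹' (Db D i))ᶜ := by
        ext v
        simp [hji]
      rw [h2]
      exact ((isClosed_Db hDc j).preimage continuous_snd).isOpen_compl.inter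
        ((isClosed_Db hDc i).preimage continuous_snd).isOpen_compl
  · by_cases hab : a = b
    · simp only [hab]
      simpa using hW
    · simp [hab]
  · refine ContinuousOn.isOpen_inter_preimage ?_ (isOpen_lt continuous_const continuous_snd) hW
    refine ContinuousOn.prodMk ?_ continuous_snd.continuousOn
    refine continuous_fst.continuousOn.add (continuousOn_const.div continuous_snd.continuousOn ?_)
    intro v hv
    exact ne_of_gt hv

include hDc in
lemma isOpenEmbedding_ch (j : Option J) (a : ℝ) : IsOpenEmbedding (ch D j a) :=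
  IsOpenEmbedding.of_continuous_injective_isOpenMap (continuous_ch D j a) (ch_injective j a)
    (isOpenMap_ch hDc j a)

/-- the height -/
def ht (m : MS D) : ℝ := m.1.2.2.2

lemma ht_ch (j : Option J) (a : ℝ) (v : ℝ × ℝ) : ht (ch D j a v) = v.2 := by
  show (nf a v.1 v.2).2.2 = v.2
  unfold nf
  split_ifs <;> rfl

lemma continuous_ht : Continuous (ht : MS D → ℝ) := by
  refine continuous_MS D fun j a => ?_
  simp_rw [ht_ch]
  exact continuous_snd

include hDc in
lemma chart_MS (m : MS D) : ∃ U : Set (MS D), IsOpen U ∧ m ∈ U ∧ Nonempty (U ≃ₜ (Fin 2 → ℝ)) := by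
  obtain ⟨j, a, v, rfl⟩ := surj D m
  refine ⟨range (ch D j a), (isOpenEmbedding_ch hDc j a).isOpen_range, ⟨v, rfl⟩, ⟨?_⟩⟩
  exact (isOpenEmbedding_ch hDc j a).isEmbedding.toHomeomorph.symm.trans
    (Homeomorph.finTwoArrow).symm

include hDi in
lemma exists_pos_notMem (j : Option J) : ∃ s : ℝ, 0 < s ∧ s ∉ Db D j := by
  by_contra hc
  push Not at hc
  have h1 : Ioi (0 : ℝ) ⊆ interior (Db D j) := interior_maximal (fun s hs => hc s hs) isOpen_Ioi
  rw [interior_Db hDi] at h1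
  exact h1 (mem_Ioi.2 (zero_lt_one' ℝ))

include hDc hDi in
lemma manifold_MS : IsManifoldDim 2 (MS D) := by
  refine ⟨?_, chart_MS hDc⟩
  have : Nonempty (MS D) := ⟨ch D none 0 (0, 0)⟩
  have hpre : PreconnectedSpace (MS D) := by
    refine ⟨isPreconnected_of_forall (ch D none 0 (0, 0)) fun m _ => ?_⟩
    obtain ⟨j, a, v, rfl⟩ := surj D m
    obtain ⟨s, hs, hsj⟩ := exists_pos_notMem hDi j
    refine ⟨range (ch D none 0) ∪ range (ch D j a), subset_univ _, Or.inl ⟨_, rfl⟩,
      Or.inr ⟨_, rfl⟩, ?_⟩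
    refine IsPreconnected.union (ch D j a (0, s)) ⟨(a / s, s), ?_⟩ ⟨_, rfl⟩
      (isPreconnected_range (continuous_ch D none 0)) (isPreconnected_range (continuous_ch D j a))
    refine ch_eq_iff.2 ⟨rfl, Or.inr ⟨fun h => h, hsj⟩, Or.inr ⟨hs, ?_⟩⟩
    show 0 + a / s * s = a + 0 * s
    field_simp
    ring
  exact { toPreconnectedSpace := hpre, toNonempty := this }

include hDc hDi in
lemma not_separated (i j : Option J) (a : ℝ) (v : ℝ × ℝ) (U V : Set (MS D)) (hU : IsOpen U)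
    (hV : IsOpen V) (h1 : ch D i a v ∈ U) (h2 : ch D j a v ∈ V) : (U ∩ V).Nonempty := by
  have hW : IsOpen (ch D i a ⁻¹' U ∩ ch D j a ⁻¹' V) :=
    (hU.preimage (continuous_ch D i a)).inter (hV.preimage (continuous_ch D j a))
  have hW2 : IsOpen (Prod.snd '' (ch D i a ⁻¹' U ∩ ch D j a ⁻¹' V)) := isOpenMap_snd _ hW
  have h3 : interior (Db D i ∪ Db D j) = ∅ := by
    rw [interior_union_isClosed_of_interior_empty (isClosed_Db hDc i) (interior_Db hDi j)]
    exact interior_Db hDi i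
  obtain ⟨s, ⟨w, hw, rfl⟩, hs⟩ : ∃ s ∈ Prod.snd '' (ch D i a ⁻¹' U ∩ ch D j a ⁻¹' V),
      s ∉ Db D i ∪ Db D j := by
    by_contra hc
    push Not at hc
    have h4 := interior_maximal hc hW2
    rw [h3] at h4
    exact h4 ⟨v, ⟨h1, h2⟩, rfl⟩
  refine ⟨ch D i a w, hw.1, ?_⟩
  have h5 : ch D i a w = ch D j a w := ch_eq_iff.2 ⟨rfl, Or.inr ⟨fun h => hs (Or.inl h),
    fun h => hs (Or.inr h)⟩, Or.inl ⟨rfl, rfl⟩⟩
  rw [h5]
  exact hw.2

include hDc hDi in
lemma enh_MS (hcov : ∀ s, ∃ ξ, s ∈ D ξ) : EverywhereNonHausdorff (MS D) := by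
  have hnone : ∀ a v, (NH (ch D none a v)).Nonempty := by
    intro a v
    obtain ⟨ξ, hξ⟩ := hcov v.2
    refine ⟨ch D (some ξ) a v, fun h => ?_, fun U V hU hV h1 h2 =>
      not_separated hDc hDi none (some ξ) a v U V hU hV h1 h2⟩
    rcases (ch_eq_iff.1 h).2.1 with h3 | h3
    · exact absurd h3 (by simp)
    · exact h3.1 hξ
  intro m
  obtain ⟨j, a, v, rfl⟩ := surj D m
  cases j with
  | none => exact hnone a v
  | some ξ =>
    by_cases hξ : v.2 ∈ D ξ
    · refine ⟨ch D none a v, fun h => ?_, fun U V hU hV h1 h2 =>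
        not_separated hDc hDi (some ξ) none a v U V hU hV h1 h2⟩
      rcases (ch_eq_iff.1 h).2.1 with h3 | h3
      · exact absurd h3 (by simp)
      · exact h3.2 hξ
    · have h1 : ch D (some ξ) a v = ch D none a v :=
        ch_eq_iff.2 ⟨rfl, Or.inr ⟨hξ, fun h => h⟩, Or.inl ⟨rfl, rfl⟩⟩
      rw [h1]
      exact hnone a v

/-- the Hausdorff pieces -/
def Nj (D : J → Set ℝ) (j : Option J) : Set (MS D) := ⋃ a, range (ch D j a)

include hDc in
lemma isOpen_Nj (j : Option J) : IsOpen (Nj D j) :=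
  isOpen_iUnion fun a => (isOpenEmbedding_ch hDc j a).isOpen_range

include hDc in
lemma separate_same (j : Option J) (a : ℝ) {v w : ℝ × ℝ} (hvw : v ≠ w) :
    ∃ U V : Set (MS D), IsOpen U ∧ IsOpen V ∧ ch D j a v ∈ U ∧ ch D j a w ∈ V ∧ Disjoint U V := by
  obtain ⟨A, B, hA, hB, hvA, hwB, hAB⟩ := t2_separation hvw
  refine ⟨ch D j a '' A, ch D j a '' B, isOpenMap_ch hDc j a A hA, isOpenMap_ch hDc j a B hB,
    ⟨v, hvA, rfl⟩, ⟨w, hwB, rfl⟩, ?_⟩
  exact (disjoint_image_iff (ch_injective j a)).2 hAB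

include hDc in
lemma t2_Nj (j : Option J) : T2Space (Nj D j) := by
  have key : ∀ x ∈ Nj D j, ∀ y ∈ Nj D j, x ≠ y →
      ∃ U V : Set (MS D), IsOpen U ∧ IsOpen V ∧ x ∈ U ∧ y ∈ V ∧ Disjoint U V := by
    intro x hx y hy hxy
    obtain ⟨a, ⟨t, s⟩, rfl⟩ := mem_iUnion.1 hx
    obtain ⟨b, ⟨t', s'⟩, rfl⟩ := mem_iUnion.1 hy
    by_cases hss : s = s'
    · subst hss
      by_cases hs : 0 < s
      · have h1 : ch D j b (t', s) = ch D j a (t' + (b - a) / s, s) := by
          refine ch_eq_iff.2 ⟨rfl, Or.inl rfl, Or.inr ⟨hs, ?_⟩⟩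
          have h7 : s ≠ 0 := ne_of_gt hs
          show b + t' * s = a + (t' + (b - a) / s) * s
          field_simp
          ring
        rw [h1] at hxy ⊢
        exact separate_same hDc j a fun h => hxy (by rw [h])
      · by_cases hab : a = b
        · subst hab
          exact separate_same hDc j a fun h => hxy (by rw [h])
        · have hc : 0 < |t| + |t'| + 2 := by positivity
          have hab' : 0 < |a - b| := abs_pos.2 (sub_ne_zero.2 hab)
          let δ := |a - b| / (|t| + |t'| + 2)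
          have hδ : 0 < δ := div_pos hab' hc
          have hopen : ∀ u : ℝ, IsOpen {v : ℝ × ℝ | |v.1 - u| < 1 ∧ v.2 < δ} := by
            intro u
            exact (isOpen_lt (continuous_fst.sub continuous_const).abs continuous_const).inter
              (isOpen_lt continuous_snd continuous_const)
          refine ⟨ch D j a '' {v | |v.1 - t| < 1 ∧ v.2 < δ},
            ch D j b '' {v | |v.1 - t'| < 1 ∧ v.2 < δ}, isOpenMap_ch hDc j a _ (hopen t),
            isOpenMap_ch hDc j b _ (hopen t'), ⟨_, ⟨by simp, ?_⟩, rfl⟩, ⟨_, ⟨by simp, ?_⟩, rfl⟩, ?_⟩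
          · exact lt_of_le_of_lt (not_lt.1 hs) hδ
          · exact lt_of_le_of_lt (not_lt.1 hs) hδ
          · rw [Set.disjoint_left]
            rintro _ ⟨v, ⟨hv1, hv2⟩, rfl⟩ ⟨w, ⟨hw1, hw2⟩, hvw⟩
            obtain ⟨h1, -, h2⟩ := ch_eq_iff.1 hvw
            rcases h2 with h2 | ⟨h2, h3⟩
            · exact hab h2.1.symm
            · have h4 : a - b = (w.1 - v.1) * w.2 := by
                rw [← h1] at *
                linarith
              have h5 : |a - b| = |w.1 - v.1| * w.2 := by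
                rw [h4, abs_mul, abs_of_pos h2]
              have h6 : |w.1 - v.1| ≤ |t| + |t'| + 2 := by
                have e1 : w.1 - v.1 = (w.1 - t') + (t' - t) - (v.1 - t) := by ring
                rw [e1]
                have e2 := abs_sub ((w.1 - t') + (t' - t)) (v.1 - t)
                have e3 := abs_add_le (w.1 - t') (t' - t)
                have e4 := abs_sub t' t
                linarith
              have h7 : |w.1 - v.1| * w.2 < (|t| + |t'| + 2) * δ := by
                calc |w.1 - v.1| * w.2 ≤ (|t| + |t'| + 2) * w.2 :=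
                      mul_le_mul_of_nonneg_right h6 h2.le
                  _ < (|t| + |t'| + 2) * δ := mul_lt_mul_of_pos_left hw2 hc
              have h8 : (|t| + |t'| + 2) * δ = |a - b| := mul_div_cancel₀ _ hc.ne'
              rw [h8, ← h5] at h7
              exact lt_irrefl _ h7
    · obtain ⟨A, B, hA, hB, h1, h2, hAB⟩ := t2_separation hss
      refine ⟨ht ⁻¹' A, ht ⁻¹' B, hA.preimage continuous_ht, hB.preimage continuous_ht, ?_, ?_,
        hAB.preimage _⟩
      · show ht (ch D j a (t, s)) ∈ A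
        rw [ht_ch]; exact h1
      · show ht (ch D j b (t', s')) ∈ B
        rw [ht_ch]; exact h2
  refine ⟨fun x y hxy => ?_⟩
  obtain ⟨U, V, hU, hV, hx, hy, hUV⟩ := key x.1 x.2 y.1 y.2 fun h => hxy (Subtype.ext h)
  exact ⟨Subtype.val ⁻¹' U, Subtype.val ⁻¹' V, hU.preimage continuous_subtype_val,
    hV.preimage continuous_subtype_val, hx, hy, hUV.preimage _⟩

include hDc in
lemma OH_MS : OHNumber (MS D) ≤ #(Option J) := by
  refine le_trans (csInf_le' ⟨range (Nj D), rfl, ?_, ?_⟩) mk_range_le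
  · rintro _ ⟨j, rfl⟩
    exact ⟨isOpen_Nj hDc j, t2_Nj hDc j⟩
  · rw [eq_univ_iff_forall]
    intro m
    obtain ⟨j, a, v, rfl⟩ := surj D m
    exact ⟨Nj D j, ⟨j, rfl⟩, mem_iUnion.2 ⟨a, v, rfl⟩⟩

include hDc hDi in
lemma E_MS : 𝔠 ≤ ENumber 2 (MS D) := by
  have hM := manifold_MS hDc hDi
  refine le_csInf ?_ ?_
  · choose U hU hx e using hM.locEuclidean
    refine ⟨_, range U, rfl, ?_, ?_⟩
    · rintro _ ⟨x, rfl⟩
      exact ⟨hU x, e x⟩
    · rw [eq_univ_iff_forall]
      intro x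
      exact ⟨U x, ⟨x, rfl⟩, hx x⟩
  · rintro _ ⟨𝒰, rfl, h1, h2⟩
    by_contra hlt
    push Not at hlt
    let G : ℝ → Set (MS D) := fun a => ch D none a '' {v | v.2 < 0}
    have hGo : ∀ a, IsOpen (G a) := fun a =>
      isOpenMap_ch hDc none a _ (isOpen_lt continuous_snd continuous_const)
    have hGd : ∀ a b, a ≠ b → Disjoint (G a) (G b) := by
      intro a b hab
      rw [Set.disjoint_left]
      rintro _ ⟨v, hv, rfl⟩ ⟨w, hw, hvw⟩
      obtain ⟨h3, -, h4⟩ := ch_eq_iff.1 hvw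
      rcases h4 with h4 | h4
      · exact hab h4.1.symm
      · exact absurd h4.1 (not_lt.2 (le_of_lt hw))
    have hfib : ∀ U : 𝒰, {a : ℝ | ch D none a (0, -1) ∈ U.1}.Countable := by
      intro U
      obtain ⟨hUo, ⟨e⟩⟩ := h1 U.1 U.2
      have : TopologicalSpace.SeparableSpace U.1 := e.symm.isQuotientMap.separableSpace
      refine Set.PairwiseDisjoint.countable_of_isOpen
        (s := fun a => (Subtype.val ⁻¹' (G a) : Set U.1)) ?_ ?_ ?_
      · intro a _ b _ hab
        exact (hGd a b hab).preimage _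
      · intro a _
        exact (hGo a).preimage continuous_subtype_val
      · intro a ha
        exact ⟨⟨_, ha⟩, (0, -1), by simp, rfl⟩
    have h3 : (Set.univ : Set ℝ) ⊆ ⋃ U : 𝒰, {a : ℝ | ch D none a (0, -1) ∈ U.1} := by
      intro a _
      have h4 : ch D none a (0, -1) ∈ ⋃₀ 𝒰 := by rw [h2]; exact mem_univ _
      obtain ⟨U, hU, ha⟩ := h4
      exact mem_iUnion.2 ⟨⟨U, hU⟩, ha⟩
    have h4 : #ℝ < 𝔠 := by
      rw [← mk_univ]
      refine (mk_le_mk_of_subset h3).trans_lt ((mk_iUnion_le _).trans_lt ?_)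
      refine mul_lt_of_lt aleph0_le_continuum hlt ?_
      exact lt_of_le_of_lt (ciSup_le' fun U => (hfib U).le_aleph0) aleph0_lt_continuum
    rw [mk_real] at h4
    exact lt_irrefl _ h4

end

/-- The example. -/
theorem exists_gap (h : covB < 𝔠) : ∃ (X : Type) (_ : TopologicalSpace X), IsManifoldDim 2 X ∧
    EverywhereNonHausdorff X ∧ OHNumber X < ENumber 2 X := by
  obtain ⟨𝒟, h1, h2, h3⟩ := covB_mem
  let D : 𝒟 → Set ℝ := fun A => closure A.1
  have hDc : ∀ ξ, IsClosed (D ξ) := fun ξ => isClosed_closure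
  have hDi : ∀ ξ, interior (D ξ) = ∅ := fun ξ => h2 ξ.1 ξ.2
  have hcov : ∀ s, ∃ ξ, s ∈ D ξ := by
    intro s
    have h4 : s ∈ ⋃₀ 𝒟 := by rw [h3]; exact mem_univ s
    obtain ⟨A, hA, hs⟩ := h4
    exact ⟨⟨A, hA⟩, subset_closure hs⟩
  refine ⟨MS D, inferInstance, manifold_MS hDc hDi, enh_MS hDc hDi hcov, ?_⟩
  refine (OH_MS hDc).trans_lt (lt_of_lt_of_le ?_ (E_MS hDc hDi))
  rw [mk_option, h1]
  exact add_lt_of_lt aleph0_le_continuum h (one_lt_aleph0.trans aleph0_lt_continuum)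

end Pool.Agent.R475.ENH
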