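import Pool.Agent.R475.ENH.Cov

/-!
# Non-Hausdorff manifolds: definitions, and the upper bound
-/

set_option autoImplicit false

namespace Pool.Agent.R475.ENH

open Set Topology Cardinal Filter

/-- The points `y ≠ x` which cannot be separated from `x` by disjoint open sets. -/
def NH {X : Type} [TopologicalSpace X] (x : X) : Set X :=
  {y | y ≠ x ∧ ∀ U V : Set X, IsOpen U → IsOpen V → x ∈ U → y ∈ V → (U ∩ V).Nonempty}

/-- Manifolds of dimension `n`, not necessarily Hausdorff: connected spaces in which every point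
has an open neighbourhood homeomorphic to `ℝⁿ`. -/
structure IsManifoldDim (n : ℕ) (X : Type) [TopologicalSpace X] : Prop where
  connected : ConnectedSpace X
  locEuclidean : ∀ x : X, ∃ U : Set X, IsOpen U ∧ x ∈ U ∧ Nonempty (U ≃ₜ (Fin n → ℝ))

/-- Everywhere non-Hausdorff spaces. -/
def EverywhereNonHausdorff (X : Type) [TopologicalSpace X] : Prop := ∀ x : X, (NH x).Nonempty

/-- `E(X)`: the least cardinality of a cover of `X` by open sets homeomorphic to `ℝⁿ`. -/
noncomputable def ENumber (n : ℕ) (X : Type) [TopologicalSpace X] : Cardinal.{0} :=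
  sInf {c | ∃ 𝒰 : Set (Set X), #𝒰 = c ∧ (∀ U ∈ 𝒰, IsOpen U ∧ Nonempty (U ≃ₜ (Fin n → ℝ))) ∧
    ⋃₀ 𝒰 = Set.univ}

/-- `OH(X)`: the least cardinality of a cover of `X` by open sets which are Hausdorff in the
subspace topology. -/
noncomputable def OHNumber (X : Type) [TopologicalSpace X] : Cardinal.{0} :=
  sInf {c | ∃ 𝒰 : Set (Set X), #𝒰 = c ∧ (∀ U ∈ 𝒰, IsOpen U ∧ T2Space U) ∧ ⋃₀ 𝒰 = Set.univ}

section

variable {n : ℕ} {X : Type} [TopologicalSpace X]

/-- inverse charts -/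
lemma IsManifoldDim.chart (hM : IsManifoldDim n X) (x : X) :
    ∃ g : (Fin n → ℝ) → X, IsOpenEmbedding g ∧ ∃ v, g v = x := by
  obtain ⟨U, hU, hx, ⟨e⟩⟩ := hM.locEuclidean x
  refine ⟨fun v => (e.symm v).1, hU.isOpenEmbedding_subtypeVal.comp e.symm.isOpenEmbedding,
    e ⟨x, hx⟩, ?_⟩
  show (e.symm (e ⟨x, hx⟩)).1 = x
  rw [e.symm_apply_apply]

lemma mk_fin_le (n : ℕ) : #(Fin n → ℝ) ≤ 𝔠 := by
  rw [← power_def, mk_fin, mk_real, power_natCast]
  rcases Nat.eq_zero_or_pos n with rfl | hn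
  · rw [pow_zero]
    exact (one_lt_aleph0.trans aleph0_lt_continuum).le
  · exact (power_nat_le aleph0_le_continuum)

lemma IsManifoldDim.firstCountable (hM : IsManifoldDim n X) : FirstCountableTopology X := by
  refine ⟨fun x => ?_⟩
  obtain ⟨g, hg, v, rfl⟩ := hM.chart x
  rw [← hg.map_nhds_eq]
  infer_instance

lemma IsManifoldDim.locallyConnected (hM : IsManifoldDim n X) : LocallyConnectedSpace X := by
  choose g hg v hv using hM.chart
  refine locallyConnectedSpace_of_connected_bases (fun x (r : ℝ) => g x '' Metric.ball (v x) r)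
    (fun _ r => 0 < r) (fun x => ?_) fun x r _ => ?_
  · have h1 := (Metric.nhds_basis_ball (x := v x)).map (g x)
    rw [(hg x).map_nhds_eq, hv] at h1
    exact h1
  · exact (convex_ball (v x) r).isPreconnected.image _ (hg x).continuous.continuousOn

/-- **A lower bound for the open Hausdorff number.** -/
theorem covB_le_of_cover (hM : IsManifoldDim n X) (hE : EverywhereNonHausdorff X)
    (𝒰 : Set (Set X)) (h𝒰 : ∀ U ∈ 𝒰, IsOpen U ∧ T2Space U) (hc : ⋃₀ 𝒰 = Set.univ) :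
    covB ≤ #𝒰 := by
  have key : ∀ x : X, ∃ O ∈ 𝒰, x ∉ O ∧ x ∈ closure O := by
    intro x
    obtain ⟨y, hyx, hy⟩ := hE x
    have h1 : y ∈ ⋃₀ 𝒰 := by rw [hc]; exact mem_univ y
    obtain ⟨O, hO, hyO⟩ := h1
    refine ⟨O, hO, fun hxO => ?_, ?_⟩
    · have := (h𝒰 O hO).2
      obtain ⟨A, B, hA, hB, hxA, hyB, hAB⟩ := t2_separation
        (x := (⟨x, hxO⟩ : O)) (y := ⟨y, hyO⟩) fun h => hyx (congrArg Subtype.val h).symm
      have hO' := (h𝒰 O hO).1
      obtain ⟨z, ⟨a, ha, haz⟩, ⟨b, hb, hbz⟩⟩ := hy (Subtype.val '' A) (Subtype.val '' B)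
        (hO'.isOpenMap_subtype_val _ hA) (hO'.isOpenMap_subtype_val _ hB)
        ⟨_, hxA, rfl⟩ ⟨_, hyB, rfl⟩
      have hab : a = b := Subtype.ext (haz.trans hbz.symm)
      subst hab
      exact (Set.disjoint_left.1 hAB) ha hb
    · rw [mem_closure_iff]
      intro U hU hxU
      exact hy U O hU (h𝒰 O hO).1 hxU hyO
  obtain ⟨x₀⟩ := hM.connected.toNonempty
  obtain ⟨g, hg, v, rfl⟩ := hM.chart x₀
  cases n with
  | zero =>
    exfalso
    obtain ⟨O, hO, h1, h2⟩ := key (g v)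
    rw [mem_closure_iff] at h2
    obtain ⟨z, ⟨w, hw⟩, hz⟩ := h2 (range g) hg.isOpen_range ⟨v, rfl⟩
    have : w = v := Subsingleton.elim _ _
    rw [this] at hw
    exact h1 (hw ▸ hz)
  | succ n =>
    refine covProp_fin n 𝒰 (fun O => g ⁻¹' (closure O.1 \ O.1)) (fun O => ?_) (fun O => ?_) ?_
    · exact (isClosed_closure.sdiff (h𝒰 O.1 O.2).1).preimage hg.continuous
    · by_contra hne
      obtain ⟨w, hw⟩ := nonempty_iff_ne_empty.2 hne
      have h3 : IsOpen (g '' interior (g ⁻¹' (closure O.1 \ O.1))) :=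
        hg.isOpenMap _ isOpen_interior
      have h4 : g w ∈ closure O.1 := (interior_subset hw).1
      rw [mem_closure_iff] at h4
      obtain ⟨z, ⟨u, hu, rfl⟩, hz⟩ := h4 _ h3 ⟨w, hw, rfl⟩
      exact (interior_subset hu).2 hz
    · intro w
      obtain ⟨O, hO, h1, h2⟩ := key (g w)
      exact ⟨⟨O, hO⟩, h2, h1⟩

/-- **An upper bound for the number of points.** -/
theorem mk_le_of_cover (hM : IsManifoldDim n X) (𝒰 : Set (Set X))
    (h𝒰 : ∀ U ∈ 𝒰, IsOpen U ∧ T2Space U) (hc : ⋃₀ 𝒰 = Set.univ) : #X ≤ max #𝒰 𝔠 := by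
  have := hM.connected
  have := hM.firstCountable
  have := hM.locallyConnected
  choose g hg v hv using hM.chart
  -- components are small
  have hcomp : ∀ O ∈ 𝒰, ∀ x, #(connectedComponentIn O x) ≤ 𝔠 := by
    intro O hO x
    have h1 : IsOpen (connectedComponentIn O x) := (h𝒰 O hO).1.connectedComponentIn
    have : T2Space O := (h𝒰 O hO).2
    have : T2Space (connectedComponentIn O x) :=
      T2Space.of_injective_continuous
        (f := Set.inclusion (connectedComponentIn_subset O x)) (Set.inclusion_injective _)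
        (continuous_inclusion _)
    have : PreconnectedSpace (connectedComponentIn O x) :=
      Subtype.preconnectedSpace isPreconnected_connectedComponentIn
    refine card_le_continuum _ (fun y => Subtype.val ⁻¹' (range (g y.1)))
      (fun y => (hg y.1).isOpen_range.preimage continuous_subtype_val)
      (fun y => ⟨v y.1, hv y.1⟩) fun y => ?_
    have h2 : #(Subtype.val ⁻¹' (range (g y.1)) : Set (connectedComponentIn O x)) ≤
        #(range (g y.1)) :=
      mk_preimage_of_injective _ _ Subtype.val_injective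
    exact h2.trans (mk_range_le.trans (mk_fin_le n))
  -- the chain of components
  obtain ⟨x₀⟩ := hM.connected.toNonempty
  let S : ℕ → Set X := fun k => Nat.rec {x₀}
    (fun _ A => A ∪ ⋃ x ∈ A, ⋃ O ∈ 𝒰, connectedComponentIn O x) k
  have hSs : ∀ k, S (k + 1) = S k ∪ ⋃ x ∈ S k, ⋃ O ∈ 𝒰, connectedComponentIn O x := fun k => rfl
  have hsub : ∀ k, ∀ x ∈ S k, ∀ O ∈ 𝒰, connectedComponentIn O x ⊆ S (k + 1) := by
    intro k x hx O hO y hy
    rw [hSs]
    exact Or.inr (mem_iUnion₂.2 ⟨x, hx, mem_iUnion₂.2 ⟨O, hO, hy⟩⟩)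
  have hω : ℵ₀ ≤ max #𝒰 𝔠 := aleph0_le_continuum.trans (le_max_right _ _)
  have hcard : ∀ k, #(↥(S k)) ≤ max #𝒰 𝔠 := by
    intro k
    induction k with
    | zero =>
      show #({x₀} : Set X) ≤ _
      rw [mk_singleton]
      exact one_lt_aleph0.le.trans hω
    | succ k ih =>
      rw [hSs]
      refine (mk_union_le _ _).trans (add_le_of_le hω ih ?_)
      rw [biUnion_eq_iUnion]
      refine (mk_iUnion_le _).trans (mul_le_of_le hω ih (ciSup_le' fun x => ?_))
      rw [biUnion_eq_iUnion]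
      refine (mk_iUnion_le _).trans (mul_le_of_le hω (le_max_left _ _) (ciSup_le' fun O => ?_))
      exact (hcomp O.1 O.2 _).trans (le_max_right _ _)
  have hmem : ∀ x : X, ∃ O ∈ 𝒰, x ∈ O := by
    intro x
    have h1 : x ∈ ⋃₀ 𝒰 := by rw [hc]; exact mem_univ x
    obtain ⟨O, hO, hx⟩ := h1
    exact ⟨O, hO, hx⟩
  have hopen : IsOpen (⋃ k, S k) := by
    rw [isOpen_iff_forall_mem_open]
    intro x hx
    obtain ⟨k, hk⟩ := mem_iUnion.1 hx
    obtain ⟨O, hO, hxO⟩ := hmem x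
    exact ⟨connectedComponentIn O x, (hsub k x hk O hO).trans (subset_iUnion S (k + 1)),
      (h𝒰 O hO).1.connectedComponentIn, mem_connectedComponentIn hxO⟩
  have hclosed : IsClosed (⋃ k, S k) := by
    refine ⟨?_⟩
    rw [isOpen_iff_forall_mem_open]
    intro y hy
    obtain ⟨O, hO, hyO⟩ := hmem y
    refine ⟨connectedComponentIn O y, ?_, (h𝒰 O hO).1.connectedComponentIn,
      mem_connectedComponentIn hyO⟩
    intro z hz hzS
    obtain ⟨k, hk⟩ := mem_iUnion.1 hzS
    apply hy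
    refine mem_iUnion.2 ⟨k + 1, hsub k z hk O hO ?_⟩
    rw [← connectedComponentIn_eq hz]
    exact mem_connectedComponentIn hyO
  have huniv : (⋃ k, S k) = Set.univ :=
    IsClopen.eq_univ ⟨hclosed, hopen⟩ ⟨x₀, mem_iUnion.2 ⟨0, rfl⟩⟩
  rw [← mk_univ, ← huniv]
  refine (mk_iUnion_le _).trans (mul_le_of_le hω ?_ (ciSup_le' fun k => hcard k))
  rw [mk_nat]
  exact hω

lemma ENumber_le (hM : IsManifoldDim n X) : ENumber n X ≤ #X := by
  choose U hU hx e using hM.locEuclidean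
  refine le_trans (csInf_le' ⟨range U, rfl, ?_, ?_⟩) mk_range_le
  · rintro _ ⟨x, rfl⟩
    exact ⟨hU x, e x⟩
  · rw [eq_univ_iff_forall]
    intro x
    exact ⟨U x, ⟨x, rfl⟩, hx x⟩

lemma exists_OH_cover (hM : IsManifoldDim n X) : ∃ 𝒰 : Set (Set X), #𝒰 = OHNumber X ∧
    (∀ U ∈ 𝒰, IsOpen U ∧ T2Space U) ∧ ⋃₀ 𝒰 = Set.univ := by
  have h : {c : Cardinal.{0} | ∃ 𝒰 : Set (Set X), #𝒰 = c ∧ (∀ U ∈ 𝒰, IsOpen U ∧ T2Space U) ∧
      ⋃₀ 𝒰 = Set.univ}.Nonempty := by
    choose U hU hx e using hM.locEuclidean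
    refine ⟨_, range U, rfl, ?_, ?_⟩
    · rintro _ ⟨x, rfl⟩
      obtain ⟨e⟩ := e x
      exact ⟨hU x, e.isEmbedding.t2Space⟩
    · rw [eq_univ_iff_forall]
      intro x
      exact ⟨U x, ⟨x, rfl⟩, hx x⟩
  exact csInf_mem h

theorem covB_lt_of_gap (hM : IsManifoldDim n X) (hE : EverywhereNonHausdorff X)
    (hlt : OHNumber X < ENumber n X) : covB < 𝔠 := by
  obtain ⟨𝒰, h1, h2, h3⟩ := exists_OH_cover hM
  have h4 := covB_le_of_cover hM hE 𝒰 h2 h3
  have h5 := mk_le_of_cover hM 𝒰 h2 h3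
  rw [h1] at h4 h5
  have h6 := hlt.trans_le ((ENumber_le hM).trans h5)
  rcases lt_max_iff.1 h6 with h | h
  · exact absurd h (lt_irrefl _)
  · exact h4.trans_lt h

end

end Pool.Agent.R475.ENH
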